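import Pool.Agent.H899.NC.Inst

/-!
# The nef cone conjecture is equivalent to the existence of a finite certificate

Let `Y` be a smooth projective variety (with `K_Y ≡ 0` in the conjecture), given by its function field
`K`, the set `P` of its prime divisors (places of `K`) and an ample divisor `H`. Here `N1 P` is
`N¹(Y)`, `lat P` is the integral lattice, `IsGG P H D` says that `𝒪_Y(D)` is globally generated,
`NefE P H` is the effective nef cone, `inn` is the interior, `cn t` is the cone generated by the
finitely many vectors `t j`, and `autY P H` is the group `Aut(Y)`, which acts on `N1 P` by `act`.

A *certificate* consists of finitely many full-dimensional rational polyhedral cones `cn (t i)` in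
the effective nef cone and of a set `S` of automorphisms of `Y`, such that behind every facet (face of
codimension one) of one of the cones which contains an ample class there is a translate
`g (cn (t i'))`, `g ∈ S`, which contains the facet. There are finitely many facets, so a certificate
with a finite set `S` is a finite set of data.

* Every certificate implies the nef cone conjecture. Moreover the translates of the cones by the group
  generated by `S` cover the effective nef cone, and the image of this group in `GL(N¹(Y))` has
  finite index in the image of `Aut(Y)`.
* Conversely, if the nef cone conjecture holds for `Y`, then there is a certificate which consists of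
  one cone and of a finite set `S`.

So for the nef cone conjecture neither the group `Aut(Y)` nor the nef cone has to be known: it holds
if and only if the walls of finitely many cones inside the ample cone can be matched by finitely many
automorphisms.
-/

set_option autoImplicit false
set_option linter.overlappingInstances false
set_option linter.unusedSectionVars false
set_option linter.unusedVariables false

open FF Module Pool.Agent.K1H17.MC

namespace Pool.Agent.Results.MP_e49dc9_ag.FiniteCertificate

open Pool.Agent.H899.NC

/-- **The nef cone conjecture is equivalent to the existence of a finite certificate.** -/
theorem result {k K : Type} [Field k] [Field K] [Algebra k K] (P : Set (Place k K))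
    (H : P →₀ ℤ) (hH : IsAmple P H) (hbase : HasBase P) :
    -- the conjecture holds if and only if there is a certificate with finitely many cones and
    -- finitely many automorphisms, and then there is one with a single cone
    (NefConeConjecture P H ↔ HasCertificate P H) ∧
    (NefConeConjecture P H → HasCertificate₁ P H) ∧
    -- for every certificate, the automorphisms which occur in it generate a group whose image has
    -- finite index and whose translates of the cones cover the effective nef cone
    ∀ (S : Set (autY P H)) (N : ℕ) (m : Fin N → ℕ) (t : ∀ i, Fin (m i) → N1 P), 0 < N →
      Certificate P H S t → NefConeConjecture P H ∧ Covers P H S t ∧ FinIndex P H S := by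
  have hC := invC hH
  have hone : NefConeConjecture P H → HasCertificate₁ P H := by
    intro h
    obtain ⟨S, m, t, h1⟩ := hC.one hbase h
    exact ⟨S, m, t, cert_iff.2 h1⟩
  have hall : ∀ (S : Set (autY P H)) (N : ℕ) (m : Fin N → ℕ) (t : ∀ i, Fin (m i) → N1 P), 0 < N →
      Certificate P H S t → NefConeConjecture P H ∧ Covers P H S t ∧ FinIndex P H S :=
    fun S N m t hN hc => hC.all hbase S N m t hN (cert_iff.1 hc)
  refine ⟨⟨fun h => ?_, ?_⟩, hone, hall⟩
  · obtain ⟨S, m, t, h1⟩ := hone h
    exact ⟨S, 1, fun _ => m, fun _ => t, one_pos, h1⟩
  · rintro ⟨S, N, m, t, hN, h⟩
    exact (hall _ N m t hN h).1

end Pool.Agent.Results.MP_e49dc9_ag.FiniteCertificate
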